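import Pool.Agent.Y817.WA.Jor

/-!
# MP_038c09_al: varieties of Jordan-admissible algebras which are not RFD-varieties

An algebra `A` is Jordan-admissible if the vector space `A` with the product `xy + yx` (the algebra
`A ^ (+)`) satisfies the Jordan identity `((xx)y)x = (xx)(yx)`: for instance associative, alternative,
right alternative, Jordan and noncommutative Jordan algebras.  Let `V` be a variety of Jordan-admissible
algebras over a field of characteristic zero which contains all associative algebras, or the algebras
`A ^ (+)` of all associative algebras `A` (so all special Jordan algebras).  Then `V` is not an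
RFD-variety.

Proof.  Write `x o y = xy + yx`.  The algebra presented by `a, b, e` and the relations `e o e = 2e`,
`e o a = 2a`, `e o b = 2b`, `(a o a) o (b o b) - b o ((a o a) o b) = 4e` has the nonzero image of
`a = d/dX`, `b = X`, `e = 1` in the algebra of operators on polynomials.  In every algebra `A` of `V`
with these relations `D = [L_(a o a), L_b]` is a derivation of `A ^ (+)` with `D b = 4e`, hence
`[D, L_b] = 4 L_e`, and the operators commute with `L_e`; on the subspace `e o x = 2x` of a
finite-dimensional quotient the trace gives `0 = 8 dim`, so `e` vanishes there.
-/

set_option autoImplicit false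

namespace Pool.Agent.Results.MP_038c09_al.JordanAdmissible

open Pool.Agent.Y817.WA.Jor (pm Plus)

/-- A variety of Jordan-admissible algebras over a field of characteristic zero which contains all
associative algebras, or the algebras `A ^ (+)` of all associative algebras `A`, is not an
RFD-variety. -/
theorem result (F : Type) [Field F] [CharZero F] (S : Set (H91RFD.Poly F))
    (hJ : ∀ (A : Type) [NonUnitalNonAssocRing A] [Module F A] [IsScalarTower F A A]
      [SMulCommClass F A A], H91RFD.InVar F A S →
      ∀ x y : A, pm (pm (pm x x) y) x = pm (pm x x) (pm y x))
    (hS : (∀ (A : Type) [NonUnitalRing A] [Module F A] [IsScalarTower F A A]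
        [SMulCommClass F A A], H91RFD.InVar F A S) ∨
      (∀ (A : Type) [NonUnitalRing A] [Module F A] [IsScalarTower F A A]
        [SMulCommClass F A A], H91RFD.InVar F (Plus A) S)) :
    ¬ H91RFD.RFDVariety F S :=
  Pool.Agent.Y817.WA.Jor.jor_main F S hJ hS

end Pool.Agent.Results.MP_038c09_al.JordanAdmissible
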