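import Pool.Agent.Y817.WA.Rfd
import Pool.Agent.Y986.WK.Tri

/-!
# MP_038c09_al: varieties of alternative algebras which are not RFD-varieties

Let `F` be a field of characteristic zero and let `V` be a variety of alternative algebras over `F`
(for instance all alternative algebras, or a variety of associative algebras) which contains the
variety `W_F` of the associative algebras with `x[y,z][t,u]v = 0` and `x[y,z,t]u = 0`.  Then `V` is
not an RFD-variety.

The algebra presented in `V` by `p, x, e, z, q` and the relations `xe = ex - xz`, `zx = xz`, `pe = 0`,
`xzq - zq + eq = 0`, together with the vanishing of the associators `(g_i, g_j, g_k)` and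
`(g_i g_j, g_k, g_l)` of the generators, is associative and satisfies `p x^m z q = m! p z q`; so
`p z q` vanishes in every finite-dimensional quotient.  It does not vanish in a triangular algebra of
`W_F` (constructed by helper986): `x` acts as the multiplication by `X` on `F[X]`, `e` as the
derivation `- X d/dX`, and `q` is the functional `X^m ↦ m!`.
-/

set_option autoImplicit false

namespace Pool.Agent.Results.MP_038c09_al.NotRfdAboveW

/-- No variety of alternative algebras over a field of characteristic zero which contains `W_F` is an
RFD-variety. -/
theorem result (F : Type) [Field F] [CharZero F] (S : Set (H91RFD.Poly F))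
    (hW : ∀ (A : Type) [NonUnitalRing A] [Module F A] [IsScalarTower F A A] [SMulCommClass F A A],
      (∀ x y z t u v : A, x * (y * z - z * y) * (t * u - u * t) * v = 0) →
      (∀ x y z t u : A, x * ((y * z - z * y) * t - t * (y * z - z * y)) * u = 0) →
      H91RFD.InVar F A S)
    (hAlt : ∀ (A : Type) [NonUnitalNonAssocRing A] [Module F A] [IsScalarTower F A A]
      [SMulCommClass F A A], H91RFD.InVar F A S →
      ∀ x y : A, x * x * y = x * (x * y) ∧ y * x * x = y * (x * x)) :
    ¬ H91RFD.RFDVariety F S :=
  Pool.Agent.Y817.WA.Rfd.rfd_main Pool.Agent.Y986.WK.Tri.t F S hW hAlt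

end Pool.Agent.Results.MP_038c09_al.NotRfdAboveW
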